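import Pool.Agent.helper56.P3.Defs

/-!
# P3, module Lf: the unit argument
-/

namespace Pool.Agent.helper56.P3

open Finset

/-- the backward orbit of `0` under `w ↦ w + 1/w - 2` consists of algebraic units -/
theorem UnitArg.integral {k : Type*} [Field k] {x : ℕ → k} {ℓ : ℕ}
    (hx : ∀ j < ℓ, x j ≠ 0 ∧ x (j + 1) = x j + (x j)⁻¹ + (-2)) (h0 : x ℓ = 0) (i : ℕ)
    (hi : i ≤ ℓ) : IsIntegral ℤ (x (ℓ - i)) ∧ (0 < i → IsIntegral ℤ (x (ℓ - i))⁻¹) := by
  induction i with
  | zero => exact ⟨by rw [Nat.sub_zero, h0]; exact isIntegral_zero, fun h => absurd h (lt_irrefl _)⟩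
  | succ i ih =>
    obtain ⟨h1, -⟩ := ih (by omega)
    obtain ⟨hne, hst⟩ := hx (ℓ - (i + 1)) (by omega)
    rw [show ℓ - (i + 1) + 1 = ℓ - i by omega] at hst
    set u := x (ℓ - (i + 1)) with hu
    set y := x (ℓ - i) with hy
    have hq : u ^ 2 - (2 + y) * u + 1 = 0 := by
      rw [hst]
      field_simp
      ring
    have hint : IsIntegral ℤ u := by
      have hy' : IsIntegral ℤ (2 + y) := by
        have h2 : IsIntegral ℤ (2 : k) := by
          have := isIntegral_algebraMap (R := ℤ) (A := k) (x := 2)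
          simpa using this
        exact h2.add h1
      -- `u` is integral over the integral closure
      have h3 : IsIntegral (integralClosure ℤ k) u := by
        refine ⟨Polynomial.X ^ 2 - Polynomial.C (⟨2 + y, hy'⟩ : integralClosure ℤ k) *
          Polynomial.X + 1, ?_, ?_⟩
        · have : (Polynomial.X ^ 2 - Polynomial.C (⟨2 + y, hy'⟩ : integralClosure ℤ k) *
            Polynomial.X + 1) = Polynomial.X ^ 2 + (Polynomial.C (-(⟨2 + y, hy'⟩ :
              integralClosure ℤ k)) * Polynomial.X + Polynomial.C 1) := by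
            rw [Polynomial.C_neg, Polynomial.C_1]
            ring
          rw [this]
          exact Polynomial.monic_X_pow_add (by
            refine lt_of_le_of_lt Polynomial.degree_linear_le ?_
            norm_num)
        · simp only [Polynomial.eval₂_add, Polynomial.eval₂_sub, Polynomial.eval₂_mul,
            Polynomial.eval₂_C, Polynomial.eval₂_X, Polynomial.eval₂_pow, Polynomial.eval₂_one]
          exact hq
      exact isIntegral_trans u h3
    refine ⟨hint, fun _ => ?_⟩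
    have h4 : u⁻¹ = (2 + y) - u := by rw [hst]; ring
    rw [h4]
    have h2 : IsIntegral ℤ (2 : k) := by
      have := isIntegral_algebraMap (R := ℤ) (A := k) (x := 2)
      simpa using this
    exact (h2.add h1).sub hint

/-- an algebraic unit cannot have all its conjugates real and greater than `1` -/
theorem UnitArg.no_unit {k : Type*} [Field k] [CharZero k] [Algebra.IsAlgebraic ℚ k] {w : k}
    (hw0 : w ≠ 0) (hw : IsIntegral ℤ w) (hw' : IsIntegral ℤ w⁻¹)
    (hre : ∀ σ : k →+* ℂ, ∃ r : ℝ, 1 < r ∧ σ w = r) : False := by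
  classical
  let L := IntermediateField.adjoin ℚ {w}
  have hwQ : IsIntegral ℚ w := (Algebra.IsAlgebraic.isAlgebraic w).isIntegral
  have : FiniteDimensional ℚ L := IntermediateField.adjoin.finiteDimensional hwQ
  let w₁ : L := ⟨w, IntermediateField.mem_adjoin_simple_self ℚ w⟩
  have hval : ∀ σ : L →ₐ[ℚ] ℂ, ∃ r : ℝ, 1 < r ∧ σ w₁ = r := by
    intro σ
    letI : Algebra L ℂ := σ.toRingHom.toAlgebra
    have : Algebra.IsAlgebraic L k := Algebra.IsAlgebraic.tower_top (K := ℚ) L
    let τ : k →ₐ[L] ℂ := IsAlgClosed.lift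
    obtain ⟨r, hr, h⟩ := hre τ.toRingHom
    refine ⟨r, hr, ?_⟩
    have h1 : τ (algebraMap L k w₁) = algebraMap L ℂ w₁ := τ.commutes w₁
    exact h1.symm.trans h
  have hint : IsIntegral ℤ w₁ := by
    have h := hw
    exact (isIntegral_algHom_iff (L.val.restrictScalars ℤ) (fun a b h => Subtype.ext h)).1 h
  have hint' : IsIntegral ℤ w₁⁻¹ := by
    have h := hw'
    exact (isIntegral_algHom_iff (L.val.restrictScalars ℤ) (fun a b h => Subtype.ext h)).1 h
  have hw₁0 : w₁ ≠ 0 := fun h => hw0 (congrArg Subtype.val h)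
  obtain ⟨N, hN⟩ := IsIntegrallyClosed.isIntegral_iff.1 (Algebra.isIntegral_norm ℚ hint)
  obtain ⟨N', hN'⟩ := IsIntegrallyClosed.isIntegral_iff.1 (Algebra.isIntegral_norm ℚ hint')
  have hNN : N * N' = 1 := by
    have h1 : Algebra.norm ℚ w₁ * Algebra.norm ℚ w₁⁻¹ = 1 := by
      rw [← map_mul, mul_inv_cancel₀ hw₁0, map_one]
    rw [← hN, ← hN'] at h1
    simp only [eq_intCast] at h1
    exact_mod_cast h1
  have hprod := Algebra.norm_eq_prod_embeddings ℚ ℂ w₁
  choose r hr hr2 using hval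
  rw [Finset.prod_congr rfl (fun σ _ => hr2 σ), ← hN] at hprod
  have hprod2 : (N : ℝ) = ∏ σ : L →ₐ[ℚ] ℂ, r σ := by
    have : ((N : ℝ) : ℂ) = ((∏ σ : L →ₐ[ℚ] ℂ, r σ : ℝ) : ℂ) := by
      push_cast
      rw [← hprod]
      simp
    exact_mod_cast this
  have hne : Nonempty (L →ₐ[ℚ] ℂ) := ⟨IsAlgClosed.lift⟩
  obtain ⟨σ₀⟩ := hne
  have hgt : 1 < ∏ σ : L →ₐ[ℚ] ℂ, r σ := by
    have := Finset.prod_lt_prod_of_nonempty (s := (Finset.univ : Finset (L →ₐ[ℚ] ℂ)))
      (f := fun _ => (1 : ℝ)) (g := r) (fun σ _ => one_pos) (fun σ _ => hr σ)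
      ⟨σ₀, Finset.mem_univ _⟩
    simpa using this
  rw [← hprod2] at hgt
  have h5 : 1 < N := by exact_mod_cast hgt
  have h6 := Int.isUnit_iff.1 (IsUnit.of_mul_eq_one N' hNN)
  omega

/-- unit argument -/
theorem L_unit {k : Type*} [Field k] [CharZero k] [Algebra.IsAlgebraic ℚ k] {w : k} {ℓ : ℕ}
    (hw : w ≠ 0) (h : Hits w (-2) ℓ) (hre : ∀ σ : k →+* ℂ, ∃ r : ℝ, 1 < r ∧ σ w = r) :
    False := by
  obtain ⟨x, hx0, hx, hxl⟩ := h
  have hl : 0 < ℓ := by
    rcases Nat.eq_zero_or_pos ℓ with h | h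
    · exfalso
      subst h
      rw [hx0] at hxl
      exact hw hxl
    · exact h
  obtain ⟨h1, h2⟩ := UnitArg.integral hx hxl ℓ le_rfl
  rw [Nat.sub_self, hx0] at h1 h2
  exact UnitArg.no_unit hw h1 (h2 hl) hre

end Pool.Agent.helper56.P3
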