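import Pool.Agent.helper56.P3.Defs

/-!
# P3, module H9: a polynomial identity in characteristic two
-/

namespace Pool.Agent.helper56.P3

open Finset

namespace PolyId

variable {Ω : Type*} [Field Ω]

theorem rm_one (ζ : Ω) : (1 : Polynomial Ω).rootMultiplicity ζ = 0 := by
  rw [← Polynomial.C_1, Polynomial.rootMultiplicity_C]

theorem rm_pow {p : Polynomial Ω} (hp : p ≠ 0) (ζ : Ω) (k : ℕ) :
    (p ^ k).rootMultiplicity ζ = k * p.rootMultiplicity ζ := by
  induction k with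
  | zero => rw [pow_zero, rm_one, zero_mul]
  | succ k ih =>
    rw [pow_succ, Polynomial.rootMultiplicity_mul (mul_ne_zero (pow_ne_zero _ hp) hp), ih]
    ring

theorem rm_prod {ι : Type*} (s : Finset ι) (f : ι → Polynomial Ω) (hf : ∀ i ∈ s, f i ≠ 0)
    (ζ : Ω) : (∏ i ∈ s, f i).rootMultiplicity ζ = ∑ i ∈ s, (f i).rootMultiplicity ζ := by
  classical
  induction s using Finset.induction_on with
  | empty => rw [prod_empty, sum_empty, rm_one]
  | insert a s ha ih =>
    rw [prod_insert ha, sum_insert ha, Polynomial.rootMultiplicity_mul, ih fun i hi =>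
      hf i (mem_insert_of_mem hi)]
    refine mul_ne_zero (hf a (mem_insert_self _ _)) (prod_ne_zero_iff.2 fun i hi => ?_)
    exact hf i (mem_insert_of_mem hi)

theorem ne0 {e : ℕ} (he : 0 < e) : (Polynomial.X ^ e - 1 : Polynomial Ω) ≠ 0 := by
  have := Polynomial.X_pow_sub_C_ne_zero (R := Ω) he 1
  rwa [Polynomial.C_1] at this

open Classical in
theorem rm_odd [CharP Ω 2] {d : ℕ} (hd : Odd d) (ζ : Ω) :
    (Polynomial.X ^ d - 1 : Polynomial Ω).rootMultiplicity ζ = if ζ ^ d = 1 then 1 else 0 := by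
  have hpos : 0 < d := hd.pos
  have hd0 : (d : Ω) ≠ 0 := by
    rw [Ne, CharP.cast_eq_zero_iff Ω 2 d]
    exact fun h => (Nat.not_even_iff_odd.2 hd) (even_iff_two_dvd.2 h)
  have hsep := (Polynomial.X_pow_sub_one_separable_iff (F := Ω) (n := d)).2 hd0
  split_ifs with h
  · have h1 := Polynomial.rootMultiplicity_le_one_of_separable hsep ζ
    have h2 : 0 < (Polynomial.X ^ d - 1 : Polynomial Ω).rootMultiplicity ζ := by
      rw [Polynomial.rootMultiplicity_pos (ne0 hpos)]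
      simp [Polynomial.IsRoot, h]
    omega
  · apply Polynomial.rootMultiplicity_eq_zero
    simp only [Polynomial.IsRoot, Polynomial.eval_sub, Polynomial.eval_pow, Polynomial.eval_X,
      Polynomial.eval_one]
    exact fun h2 => h (sub_eq_zero.1 h2)

open Classical in
theorem rm_gen [CharP Ω 2] {d u : ℕ} (hd : Odd d) (ζ : Ω) :
    (Polynomial.X ^ (2 ^ u * d) - 1 : Polynomial Ω).rootMultiplicity ζ =
      if ζ ^ d = 1 then 2 ^ u else 0 := by
  have h1 : (Polynomial.X ^ (2 ^ u * d) - 1 : Polynomial Ω) = (Polynomial.X ^ d - 1) ^ 2 ^ u := by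
    have := sub_pow_char_pow (R := Polynomial Ω) (p := 2) (Polynomial.X ^ d) 1 u
    rw [this, one_pow, ← pow_mul, mul_comm]
  rw [h1, rm_pow (ne0 hd.pos), rm_odd hd]
  split_ifs <;> simp

end PolyId

open PolyId

/-- polynomial identity in characteristic two -/
theorem poly_id {F : Type*} [Field F] [CharP F 2] {q0 L : ℕ} (hq : Odd q0) {ι : Type*}
    (s : Finset ι) (e : ι → ℕ) (he : ∀ i ∈ s, 0 < e i) {κ : F} (hκ : κ ≠ 0)
    (hid : Polynomial.C κ * ∏ i ∈ s, ((Polynomial.X : Polynomial F) ^ e i - 1) ^ 2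
      = ((Polynomial.X ^ (q0 * 2 ^ L) - 1) ^ 2) ^ #s) : ∀ i ∈ s, ∃ u, e i = q0 * 2 ^ u := by
  classical
  -- pass to the algebraic closure
  let Ω := AlgebraicClosure F
  have : CharP Ω 2 := charP_of_injective_algebraMap (algebraMap F Ω).injective 2
  have hid' := congrArg (Polynomial.map (algebraMap F Ω)) hid
  simp only [Polynomial.map_mul, Polynomial.map_C, Polynomial.map_prod, Polynomial.map_pow,
    Polynomial.map_sub, Polynomial.map_X, Polynomial.map_one] at hid'
  have hex : ∀ i, ∃ u d, i ∈ s → (Odd d ∧ e i = 2 ^ u * d) := by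
    intro i
    by_cases hi : i ∈ s
    · obtain ⟨u, d, hd, h⟩ := Nat.exists_eq_two_pow_mul_odd (he i hi).ne'
      exact ⟨u, d, fun _ => ⟨hd, h⟩⟩
    · exact ⟨0, 0, fun h => absurd h hi⟩
  choose u d hud using hex
  have hκ' : (Polynomial.C (algebraMap F Ω κ) : Polynomial Ω) ≠ 0 := by
    rw [Polynomial.C_ne_zero]
    exact fun h => hκ ((map_eq_zero _).1 h)
  -- multiplicities
  have hmul : ∀ ζ : Ω, ∑ i ∈ s, (if ζ ^ d i = 1 then 2 ^ u i else 0) =
      #s * (if ζ ^ q0 = 1 then 2 ^ L else 0) := by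
    intro ζ
    have h1 := congrArg (Polynomial.rootMultiplicity ζ) hid'
    have hne : ∀ i ∈ s, ((Polynomial.X ^ e i - 1 : Polynomial Ω)) ≠ 0 := fun i hi =>
      ne0 (he i hi)
    rw [Polynomial.rootMultiplicity_mul (mul_ne_zero hκ'
      (prod_ne_zero_iff.2 fun i hi => pow_ne_zero _ (hne i hi))), Polynomial.rootMultiplicity_C,
      zero_add, rm_prod s _ (fun i hi => pow_ne_zero _ (hne i hi)),
      rm_pow (pow_ne_zero _ (ne0 (Nat.mul_pos hq.pos (by positivity)))),
      rm_pow (ne0 (Nat.mul_pos hq.pos (by positivity))), mul_comm q0, rm_gen hq] at h1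
    rw [sum_congr rfl (g := fun i => 2 * (if ζ ^ d i = 1 then 2 ^ u i else 0)) (fun i hi => by
      rw [rm_pow (hne i hi), (hud i hi).2, rm_gen (hud i hi).1]), ← mul_sum] at h1
    have h2 : 2 * ∑ i ∈ s, (if ζ ^ d i = 1 then 2 ^ u i else 0) =
        2 * (#s * (if ζ ^ q0 = 1 then 2 ^ L else 0)) := by
      rw [h1]; ring
    omega
  -- primitive roots of odd order
  have hprim : ∀ N : ℕ, Odd N → ∃ ζ : Ω, IsPrimitiveRoot ζ N := by
    intro N hN
    have : NeZero (N : Ω) := ⟨by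
      rw [Ne, CharP.cast_eq_zero_iff Ω 2 N]
      exact fun h => (Nat.not_even_iff_odd.2 hN) (even_iff_two_dvd.2 h)⟩
    exact HasEnoughRootsOfUnity.exists_primitiveRoot Ω N
  intro i hi
  obtain ⟨hdi, hei⟩ := hud i hi
  -- `q0 ∣ d i`
  have hdiv1 : q0 ∣ d i := by
    obtain ⟨ζ, hζ⟩ := hprim q0 hq
    have h1 := hmul 1
    have h2 := hmul ζ
    rw [if_pos (one_pow _)] at h1
    rw [if_pos hζ.pow_eq_one, ← h1] at h2
    rw [sum_congr rfl (g := fun i => 2 ^ u i) (s₂ := s) (f := fun i =>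
      if (1 : Ω) ^ d i = 1 then 2 ^ u i else 0) (fun i _ => if_pos (one_pow _))] at h2
    by_contra hcon
    have h3 : ζ ^ d i ≠ 1 := fun h => hcon (hζ.dvd_of_pow_eq_one _ h)
    have h4 : ∑ i ∈ s, (if ζ ^ d i = 1 then 2 ^ u i else 0) < ∑ i ∈ s, 2 ^ u i := by
      refine sum_lt_sum (fun j _ => ?_) ⟨i, hi, ?_⟩
      · split_ifs
        · exact le_rfl
        · exact Nat.zero_le _
      · rw [if_neg h3]; positivity
    omega
  have hdiv2 : d i ∣ q0 := by
    obtain ⟨ζ, hζ⟩ := hprim (d i) hdi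
    have h2 := hmul ζ
    by_contra hcon
    have h3 : ζ ^ q0 ≠ 1 := fun h => hcon (hζ.dvd_of_pow_eq_one _ h)
    rw [if_neg h3, mul_zero] at h2
    have h4 := (sum_eq_zero_iff.1 h2) i hi
    rw [if_pos hζ.pow_eq_one] at h4
    exact absurd h4 (by positivity)
  exact ⟨u i, by rw [hei, Nat.dvd_antisymm hdiv2 hdiv1, mul_comm]⟩

end Pool.Agent.helper56.P3
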